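import Pool.Agent.Lib.MP_c07d40_pr.Overlap
import Pool.Agent.Lib.MP_c07d40_pr.Old.NonReconstructable

namespace Pool.Agent.Results.MP_c07d40_pr.NoPartialRecovery

open Filter Topology Pool.Agent.Lib.MP_c07d40_pr

/-- (1) For every fixed `ε > 0`: if `n^ε ≤ d_n ≤ n^(1/2-ε)` then a uniformly random `d_n`-regular
graph on `n` vertices is a.a.s. not reconstructable from its 1-neighbourhoods, and if
`n^ε ≤ d_n ≤ n^(1/4-ε)` then it is a.a.s. not reconstructable from its 2-neighbourhoods.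
(2) For `r = 1, 2` and `d_n → ∞` with `d_n ^ (2 r) = o(n)`: whatever graph `est n G` with at most
`n d_n` edges is guessed from the rooted `r`-neighbourhoods of a uniformly random `d_n`-regular
graph `G`, a.a.s. every relabelling of the guess has fewer than `δ n d_n` edges in `G`. -/
theorem result :
    (∀ ε : ℝ, 0 < ε →
      (∀ d : ℕ → ℕ,
        (∀ᶠ n : ℕ in atTop, Even (n * d n) ∧ (n : ℝ) ^ ε ≤ (d n : ℝ) ∧
          (d n : ℝ) ≤ (n : ℝ) ^ (1 / 2 - ε)) →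
        Tendsto (fun n : ℕ => probNotReconstructable n (d n) 1) atTop (𝓝 1)) ∧
      (∀ d : ℕ → ℕ,
        (∀ᶠ n : ℕ in atTop, Even (n * d n) ∧ (n : ℝ) ^ ε ≤ (d n : ℝ) ∧
          (d n : ℝ) ≤ (n : ℝ) ^ (1 / 4 - ε)) →
        Tendsto (fun n : ℕ => probNotReconstructable n (d n) 2) atTop (𝓝 1))) ∧
    ∀ δ : ℝ, 0 < δ → ∀ r : ℕ, r = 1 ∨ r = 2 → ∀ d : ℕ → ℕ,
      (∀ᶠ n : ℕ in atTop, Even (n * d n)) → Tendsto d atTop atTop →
      Tendsto (fun n : ℕ => (d n : ℝ) ^ (2 * r) / n) atTop (𝓝 0) →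
      ∀ est : ∀ n : ℕ, SimpleGraph (Fin n) → SimpleGraph (Fin n),
        (∀ (n : ℕ) (G G' : SimpleGraph (Fin n)),
          (∀ v, RootedNbhdIso G G' r v v) → est n G = est n G') →
        (∀ (n : ℕ) (G : SimpleGraph (Fin n)), (est n G).edgeSet.ncard ≤ n * d n) →
        Tendsto (fun n : ℕ =>
          (({G : SimpleGraph (Fin n) | IsReg G (d n) ∧ ∀ σ : Equiv.Perm (Fin n),
              ({e ∈ (est n G).edgeSet | e.map σ ∈ G.edgeSet}.ncard : ℝ) <
                δ * n * d n}.ncard : ℕ) : ℝ) /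
            (({G : SimpleGraph (Fin n) | IsReg G (d n)}.ncard : ℕ) : ℝ)) atTop (𝓝 1) :=
  ⟨OldNonReconstructable.result, no_partial_recovery⟩

end Pool.Agent.Results.MP_c07d40_pr.NoPartialRecovery
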